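import Pool.Agent.H2.ST.Targets

/-!
Row PLF of the board st2_modules (MP_51eb24_ag): reduction modulo p - c.
-/

set_option autoImplicit false

open Pool.Agent.H2.ST MvPolynomial

namespace Pool.Agent.H82.ST2

/-- a polynomial in three variables which vanishes for `X 2 = c` is divisible by `X 2 - c` -/
theorem dvd_of_spec {k : Type} [Field k] (c : k) (P : MvPolynomial (Fin 3) k)
    (h : (aeval (![Polynomial.C Polynomial.X, Polynomial.X, Polynomial.C (Polynomial.C c)] :
      Fin 3 → Polynomial (Polynomial k)) : MvPolynomial (Fin 3) k →ₐ[k] _) P = 0) :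
    (X 2 - C c : MvPolynomial (Fin 3) k) ∣ P := by
  let Φ0 : Polynomial k →ₐ[k] MvPolynomial (Fin 3) k := Polynomial.aeval (X 0)
  let Φ : Polynomial (Polynomial k) →+* MvPolynomial (Fin 3) k :=
    Polynomial.eval₂RingHom (Φ0 : Polynomial k →+* MvPolynomial (Fin 3) k) (X 1)
  let J : Ideal (MvPolynomial (Fin 3) k) := Ideal.span {X 2 - C c}
  have key : (Ideal.Quotient.mk J : MvPolynomial (Fin 3) k →+* _) =
      ((Ideal.Quotient.mk J).comp (Φ.comp
        ((aeval (![Polynomial.C Polynomial.X, Polynomial.X, Polynomial.C (Polynomial.C c)] :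
          Fin 3 → Polynomial (Polynomial k)) : MvPolynomial (Fin 3) k →ₐ[k] _) :
            MvPolynomial (Fin 3) k →+* Polynomial (Polynomial k)))) := by
    apply MvPolynomial.ringHom_ext
    · intro r
      simp only [RingHom.comp_apply, RingHom.coe_coe, algHom_C]
      rw [show (algebraMap k (Polynomial (Polynomial k))) r = Polynomial.C (Polynomial.C r) from rfl]
      simp only [Φ, Polynomial.coe_eval₂RingHom, Polynomial.eval₂_C, RingHom.coe_coe, Φ0,
        Polynomial.aeval_C]
      rfl
    · intro i
      simp only [RingHom.comp_apply, RingHom.coe_coe, aeval_X]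
      fin_cases i
      · simp [Φ, Φ0]
      · simp [Φ]
      · simp only [Fin.reduceFinMk, Matrix.cons_val, Φ, Polynomial.coe_eval₂RingHom,
          Polynomial.eval₂_C, RingHom.coe_coe, Φ0, Polynomial.aeval_C]
        rw [Ideal.Quotient.eq, Ideal.mem_span_singleton]
        exact dvd_refl _
  have h2 := congrArg (fun f : MvPolynomial (Fin 3) k →+* (MvPolynomial (Fin 3) k ⧸ J) => f P) key
  simp only [RingHom.comp_apply, RingHom.coe_coe] at h2
  rw [h, map_zero, map_zero, Ideal.Quotient.eq_zero_iff_mem, Ideal.mem_span_singleton] at h2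
  exact h2

theorem pf_PLF (h1 : T_TRC) : T_PLF := by
  intro k _ _ _ m K φ p c hK hp hnil hprime g hg hdiv
  classical
  set q : Pol k m := p - C c with hq
  have hqK : q ∈ K := K.sub_mem hp (K.algebraMap_mem c)
  have hbq : br p q = 0 := by rw [hq, br_sub, br_self, br_C, sub_zero]
  have hqb : ∀ a, br q a = br p a := by intro a; rw [hq, sub_br, C_br, sub_zero]
  let I : Ideal (Pol k m) := Ideal.span {q}
  haveI hI : I.IsPrime := (Ideal.span_singleton_prime hprime.ne_zero).2 hprime
  let π : Pol k m →ₐ[k] (Pol k m ⧸ I) := Ideal.Quotient.mkₐ k I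
  have hπ : ∀ a b, π a = π b ↔ q ∣ a - b := by
    intro a b
    change Ideal.Quotient.mk I a = Ideal.Quotient.mk I b ↔ _
    rw [Ideal.Quotient.eq, Ideal.mem_span_singleton]
  have hπ0 : ∀ a, π a = 0 ↔ q ∣ a := by
    intro a
    have := hπ a 0
    rwa [map_zero, sub_zero] at this
  have hbr : ∀ a b, π a = π b → π (br p a) = π (br p b) := by
    intro a b h
    rw [hπ] at h ⊢
    obtain ⟨e, he⟩ := h
    rw [← br_sub, he, br_mul, hbq, mul_zero, add_zero]
    exact dvd_mul_right _ _
  have hsurj : Function.Surjective π := Ideal.Quotient.mkₐ_surjective k I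
  let D' : (Pol k m ⧸ I) → (Pol k m ⧸ I) := fun x => π (br p (Function.surjInv hsurj x))
  have hD' : ∀ a, D' (π a) = π (br p a) := fun a => hbr _ _ (Function.surjInv_eq hsurj (π a))
  let S : Subalgebra k (Pol k m ⧸ I) := K.map π
  have hS : ∀ x : S, ∃ a ∈ K, π a = x.1 := fun x => x.2
  have hDS : ∀ x : S, D' x.1 ∈ S := by
    intro x
    obtain ⟨a, ha, hax⟩ := hS x
    rw [← hax, hD']
    exact ⟨br p a, hK.bk p hp a ha, rfl⟩
  let D : S → S := fun x => ⟨D' x.1, hDS x⟩
  have hDa : ∀ (x : S) (a : Pol k m), π a = x.1 → (D x).1 = π (br p a) := by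
    intro x a hax
    change D' x.1 = _
    rw [← hax, hD']
  have hDit : ∀ (n : ℕ) (x : S) (a : Pol k m), π a = x.1 → (D^[n] x).1 = π ((br p)^[n] a) := by
    intro n
    induction n with
    | zero => intro x a hax; exact hax.symm
    | succ n ih =>
      intro x a hax
      rw [Function.iterate_succ_apply, Function.iterate_succ_apply]
      exact ih (D x) (br p a) (hDa x a hax).symm
  have hLND : LND D := by
    refine ⟨?_, ?_, ?_⟩
    · intro x y
      obtain ⟨a, ha, hax⟩ := hS x
      obtain ⟨b, hb, hby⟩ := hS y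
      apply Subtype.ext
      have e1 : π (a + b) = (x + y).1 := by rw [map_add, hax, hby]; rfl
      rw [hDa _ _ e1, br_add, map_add, ← hDa x a hax, ← hDa y b hby]
      rfl
    · intro x y
      obtain ⟨a, ha, hax⟩ := hS x
      obtain ⟨b, hb, hby⟩ := hS y
      apply Subtype.ext
      have e1 : π (a * b) = (x * y).1 := by rw [map_mul, hax, hby]; rfl
      rw [hDa _ _ e1, br_mul, map_add, map_mul, map_mul, ← hDa x a hax, ← hDa y b hby, hax, hby]
      rfl
    · intro x
      obtain ⟨a, ha, hax⟩ := hS x
      obtain ⟨n, hn⟩ := hnil a ha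
      refine ⟨n, Subtype.ext ?_⟩
      rw [hDit n x a hax, hn, map_zero]
      rfl
  haveI : CharZero (Pol k m ⧸ I) := charZero_of_injective_algebraMap
    (FaithfulSMul.algebraMap_injective k (Pol k m ⧸ I))
  haveI : CharZero S := charZero_of_injective_algebraMap (algebraMap k S).injective
  have hD0 : D 0 = 0 := by
    have := hLND.add 0 0
    rw [add_zero] at this
    exact left_eq_add.1 this
  -- a local slice
  obtain ⟨h0, hh0, hh0d⟩ : ∃ h0 ∈ K, ¬ q ∣ br p h0 := by
    by_contra hcon
    push Not at hcon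
    obtain ⟨c', hc'⟩ := hK.cn q hqK (fun a ha => by rw [hqb]; exact hcon a ha)
    by_cases hc0 : c' = 0
    · apply hprime.ne_zero
      rw [hc', hc0, C_0]
    · apply hprime.not_isUnit
      rw [hc']
      exact (isUnit_iff_ne_zero.2 hc0).map C
  let y0 : S := ⟨π h0, h0, hh0, rfl⟩
  have hy0 : D y0 ≠ 0 := by
    intro h
    apply hh0d
    rw [← hπ0, ← hDa y0 h0 rfl, h]
    rfl
  obtain ⟨s, hs1, hs2⟩ : ∃ s : S, D s ≠ 0 ∧ D (D s) = 0 := by
    have hall : ∀ n : ℕ, D^[n] (D y0) = 0 → ∃ s : S, D s ≠ 0 ∧ D (D s) = 0 := by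
      intro n
      induction n with
      | zero => intro h'; exact absurd h' hy0
      | succ n ih =>
        intro h'
        by_cases h'' : D^[n] (D y0) = 0
        · exact ih h''
        · refine ⟨D^[n] y0, ?_, ?_⟩
          · have e := (Function.iterate_succ_apply' D n y0).symm.trans
              (Function.iterate_succ_apply D n y0)
            rwa [e]
          · have e := (Function.iterate_succ_apply' D n y0).symm.trans
              (Function.iterate_succ_apply D n y0)
            rw [e]
            exact (Function.iterate_succ_apply' D n (D y0)).symm.trans h'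
    obtain ⟨n, hn⟩ := hLND.nil (D y0)
    exact hall n hn
  obtain ⟨h, hh, hhs⟩ := hS s
  -- the algebraic relation of minimal degree
  let f3 : Fin 3 → Pol k m := ![g, h, p]
  have hf3 : ∀ i, f3 i ∈ K := by
    intro i
    fin_cases i
    · exact hg
    · exact hh
    · exact hp
  have htr := hK.tr f3 hf3
  have hexd : ∃ n : ℕ, ∃ P : MvPolynomial (Fin 3) k, P ≠ 0 ∧ aeval f3 P = 0 ∧
      P.totalDegree = n := by
    rw [algebraicIndependent_iff] at htr
    push Not at htr
    obtain ⟨P, hP1, hP2⟩ := htr
    exact ⟨_, P, hP2, hP1, rfl⟩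
  obtain ⟨P, hP0, hPa, hPd⟩ := Nat.find_spec hexd
  have hPmin : ∀ P' : MvPolynomial (Fin 3) k, P' ≠ 0 → aeval f3 P' = 0 →
      P.totalDegree ≤ P'.totalDegree := by
    intro P' h1' h2'
    rw [hPd]
    exact Nat.find_min' hexd ⟨P', h1', h2', rfl⟩
  have hndvd : ¬ (X 2 - C c : MvPolynomial (Fin 3) k) ∣ P := by
    rintro ⟨P', hP'⟩
    have hP'0 : P' ≠ 0 := by
      intro h0'
      rw [h0', mul_zero] at hP'
      exact hP0 hP'
    have hX0 : (X 2 - C c : MvPolynomial (Fin 3) k) ≠ 0 := by
      intro h0'
      rw [h0', zero_mul] at hP'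
      exact hP0 hP'
    have e1 : aeval f3 P' = 0 := by
      rw [hP', map_mul, map_sub, aeval_X, algHom_C] at hPa
      rcases mul_eq_zero.1 hPa with h' | h'
      · exact absurd h' hprime.ne_zero
      · exact h'
    have e2 := hPmin P' hP'0 e1
    rw [hP', totalDegree_mul_of_isDomain hX0 hP'0] at e2
    have e3 : (X 2 - C c : MvPolynomial (Fin 3) k).totalDegree = 1 := by
      have : (X 2 - C c : MvPolynomial (Fin 3) k) = X 2 + C (-c) := by rw [C_neg, sub_eq_add_neg]
      rw [this, totalDegree_add_eq_left_of_totalDegree_lt]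
      · exact totalDegree_X _
      · rw [totalDegree_C, totalDegree_X]; exact one_pos
    omega
  let v : Fin 3 → Polynomial (Polynomial k) :=
    ![Polynomial.C Polynomial.X, Polynomial.X, Polynomial.C (Polynomial.C c)]
  let Q0 : Polynomial (Polynomial k) := aeval v P
  have hQ0 : Q0 ≠ 0 := fun h' => hndvd (dvd_of_spec c P h')
  let gb : S := ⟨π g, g, hg, rfl⟩
  have hDgb : D gb = 0 := by
    apply Subtype.ext
    rw [hDa gb g rfl]
    exact (hπ0 _).2 hdiv
  let Q : Polynomial S := Q0.map (Polynomial.aeval gb : Polynomial k →ₐ[k] S).toRingHom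
  have hDk : ∀ b : k, D (algebraMap k S b) = 0 := by
    intro b
    apply Subtype.ext
    have : π (C b) = (algebraMap k S b).1 := π.commutes b
    rw [hDa _ _ this, br_C, map_zero]
    rfl
  have hDr : ∀ r : Polynomial k, D (Polynomial.aeval gb r) = 0 := by
    intro r
    induction r using Polynomial.induction_on with
    | C a => rw [Polynomial.aeval_C]; exact hDk a
    | add a b ha hb => rw [map_add, hLND.add, ha, hb, add_zero]
    | monomial n a ih =>
      rw [pow_succ, ← mul_assoc, map_mul, Polynomial.aeval_X, hLND.mul, hDgb, ih, mul_zero,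
        mul_zero, add_zero]
  have hQc : ∀ i, D (Q.coeff i) = 0 := by
    intro i
    rw [Polynomial.coeff_map]
    exact hDr _
  have hQe : Q.eval s = 0 := by
    have e1 : Q.eval s = (Polynomial.eval₂RingHom
        (Polynomial.aeval gb : Polynomial k →ₐ[k] S).toRingHom s) Q0 := by
      rw [Polynomial.eval_map]
      rfl
    have key : ((algebraMap S (Pol k m ⧸ I)).comp ((Polynomial.eval₂RingHom
        (Polynomial.aeval gb : Polynomial k →ₐ[k] S).toRingHom s).comp
          (aeval v : MvPolynomial (Fin 3) k →ₐ[k] Polynomial (Polynomial k)).toRingHom)) =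
        (π : Pol k m →+* _).comp (aeval f3 : MvPolynomial (Fin 3) k →ₐ[k] Pol k m).toRingHom := by
      apply MvPolynomial.ringHom_ext
      · intro r
        simp only [RingHom.comp_apply, AlgHom.toRingHom_eq_coe, RingHom.coe_coe, algHom_C]
        rw [show (algebraMap k (Polynomial (Polynomial k))) r = Polynomial.C (Polynomial.C r)
          from rfl]
        simp only [Polynomial.coe_eval₂RingHom, Polynomial.eval₂_C, RingHom.coe_coe,
          Polynomial.aeval_C]
        exact (π.commutes r).symm
      · intro i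
        simp only [RingHom.comp_apply, AlgHom.toRingHom_eq_coe, RingHom.coe_coe, aeval_X]
        fin_cases i
        · simp only [v, f3, Fin.zero_eta, Matrix.cons_val_zero, Polynomial.coe_eval₂RingHom,
            Polynomial.eval₂_C, RingHom.coe_coe, Polynomial.aeval_X]
          rfl
        · simp only [v, f3, Fin.mk_one, Matrix.cons_val_one, Matrix.cons_val_zero,
            Polynomial.coe_eval₂RingHom, Polynomial.eval₂_X]
          exact hhs.symm
        · simp only [v, f3, Fin.reduceFinMk, Matrix.cons_val, Polynomial.coe_eval₂RingHom,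
            Polynomial.eval₂_C, RingHom.coe_coe, Polynomial.aeval_C]
          have e2 : π p = π (C c) := (hπ _ _).2 (dvd_refl _)
          rw [e2]
          exact (π.commutes c).symm
    have e3 := congrArg (fun f : MvPolynomial (Fin 3) k →+* (Pol k m ⧸ I) => f P) key
    simp only [RingHom.comp_apply, AlgHom.toRingHom_eq_coe, RingHom.coe_coe] at e3
    rw [hPa, map_zero] at e3
    rw [e1]
    apply Subtype.ext
    exact e3
  have hQ := h1 S D hLND s hs1 hs2 Q hQc hQe
  obtain ⟨j, hj⟩ : ∃ j, Q0.coeff j ≠ 0 := by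
    by_contra hcon
    push Not at hcon
    exact hQ0 (Polynomial.ext fun n => by rw [hcon n, Polynomial.coeff_zero])
  have hroot : Polynomial.aeval gb (Q0.coeff j) = 0 := by
    have := congrArg (fun A : Polynomial S => A.coeff j) hQ
    simp only [Q, Polynomial.coeff_map, Polynomial.coeff_zero] at this
    exact this
  have halg : IsIntegral k gb := by
    rw [← isAlgebraic_iff_isIntegral]
    exact ⟨_, hj, hroot⟩
  have hdeg : (minpoly k gb).degree = 1 :=
    IsAlgClosed.degree_eq_one_of_irreducible k (minpoly.irreducible halg)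
  obtain ⟨b, hb⟩ := minpoly.mem_range_of_degree_eq_one k gb hdeg
  refine ⟨b, ?_⟩
  rw [← hπ]
  have : (algebraMap k S b).1 = π g := congrArg Subtype.val hb
  rw [← this]
  exact (π.commutes b).symm

end Pool.Agent.H82.ST2
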